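import Mathlib

/-!
Certificate for MP_d4e2f9_lc: a contractible complex without fixed points.

`K` is the set of the 245 nonempty faces of the suspension of the 2-skeleton of the Poincare
sphere (11 vertices: points 0-4 and centres 5-10 of the six pentagons; suspension vertices 11, 12).
The group generated by `g1, g2` (= A_5) and `g3` (swap of 11 and 12) acts on it without fixed
faces, and the full simplex on 13 vertices arises from `K` by 3973 elementary expansions.
-/

set_option maxRecDepth 100000

namespace Pool.Agent.H472R2.Evas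

/-- The subset of `Fin 13` coded by a bitmask. -/
def dec (m : ℕ) : Finset (Fin 13) :=
  Finset.univ.filter (fun i : Fin 13 => m.testBit (i : ℕ) = true)

theorem mem_dec {m : ℕ} {i : Fin 13} : i ∈ dec m ↔ m.testBit (i : ℕ) = true := by
  simp [dec]

theorem dec_inj {m k : ℕ} (hm : m < 8192) (hk : k < 8192) (h : dec m = dec k) : m = k := by
  apply Nat.eq_of_testBit_eq
  intro i
  by_cases hi : i < 13
  · have h1 : (⟨i, hi⟩ : Fin 13) ∈ dec m ↔ (⟨i, hi⟩ : Fin 13) ∈ dec k := by rw [h]
    rw [mem_dec, mem_dec] at h1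
    exact Bool.eq_iff_iff.mpr h1
  · have h2 : (8192 : ℕ) ≤ 2 ^ i :=
      le_trans (by norm_num) (Nat.pow_le_pow_right (by norm_num) (Nat.le_of_not_lt hi))
    rw [Nat.testBit_lt_two_pow (lt_of_lt_of_le hm h2), Nat.testBit_lt_two_pow (lt_of_lt_of_le hk h2)]

theorem dec_surj (a : Finset (Fin 13)) : ∃ m, m < 8192 ∧ dec m = a := by
  have hinj : Function.Injective (fun m : Fin 8192 => dec m) := by
    intro m k h
    exact Fin.ext (dec_inj m.2 k.2 h)
  have hbij : Function.Bijective (fun m : Fin 8192 => dec m) := by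
    rw [Fintype.bijective_iff_injective_and_card]
    refine ⟨hinj, ?_⟩
    rw [Fintype.card_fin, Fintype.card_finset, Fintype.card_fin]
    norm_num
  obtain ⟨m, hm⟩ := hbij.2 a
  exact ⟨m, m.2, hm⟩

theorem dec_zero : dec 0 = ∅ := by
  ext i
  simp [mem_dec]

theorem dec_nonempty {m : ℕ} (hm : m < 8192) : (dec m).Nonempty ↔ m ≠ 0 := by
  constructor
  · rintro h rfl
    rw [dec_zero] at h
    exact Finset.not_nonempty_empty h
  · intro h
    rw [Finset.nonempty_iff_ne_empty]
    intro h2
    apply h
    exact dec_inj hm (by norm_num) (by rw [h2, dec_zero])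

/-- fast bit test -/
def tb (D k : ℕ) : Bool := Nat.beq (Nat.land (Nat.shiftRight D k) 1) 1

theorem tb_eq (D k : ℕ) : tb D k = D.testBit k := by
  have h : (tb D k = true) ↔ (D.testBit k = true) := by
    unfold tb
    have h0 : ∀ a b : ℕ, (Nat.beq a b = true) ↔ a = b :=
      fun a b => ⟨Nat.eq_of_beq_eq_true, fun h => by rw [h]; exact Nat.beq_refl b⟩
    rw [h0, Nat.testBit]
    have h1 : Nat.land (Nat.shiftRight D k) 1 = 1 &&& (D >>> k) := by
      show (D >>> k) &&& 1 = 1 &&& (D >>> k)
      exact Nat.land_comm _ _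
    rw [h1]
    have h2 : 1 &&& (D >>> k) = (D >>> k) % 2 := by
      rw [Nat.land_comm]; exact Nat.and_one_is_mod _
    rw [h2]
    have h3 := Nat.mod_two_eq_zero_or_one (D >>> k)
    rcases h3 with h3 | h3 <;> rw [h3] <;> simp
  exact Bool.eq_iff_iff.mpr h

/-- The set of nonempty subsets of `Fin 13` whose code is a bit of `D`. -/
def DS (D : ℕ) : Set (Finset (Fin 13)) := {a | ∃ m, m < 8192 ∧ m ≠ 0 ∧ D.testBit m = true ∧ dec m = a}

theorem mem_DS {D m : ℕ} (hm : m < 8192) (h0 : m ≠ 0) : dec m ∈ DS D ↔ D.testBit m = true := by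
  constructor
  · rintro ⟨k, hk, _, hk1, hk2⟩
    have := dec_inj hk hm hk2
    rwa [this] at hk1
  · intro h
    exact ⟨m, hm, h0, h, rfl⟩

theorem DS_nonempty {D : ℕ} {a : Finset (Fin 13)} (h : a ∈ DS D) : a.Nonempty := by
  obtain ⟨m, hm, h0, _, rfl⟩ := h
  exact (dec_nonempty hm).2 h0

/-- closed under nonempty subsets -/
def Down (S : Set (Finset (Fin 13))) : Prop := ∀ a ∈ S, ∀ b, b ⊆ a → b.Nonempty → b ∈ S

theorem dec_xor_of_mem {t x : ℕ} (hx : x < 13) (h : t.testBit x = true) :
    dec (t ^^^ (1 <<< x)) = (dec t).erase ⟨x, hx⟩ := by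
  ext i
  rw [mem_dec, Finset.mem_erase, mem_dec, Nat.testBit_xor, Nat.one_shiftLeft, Nat.testBit_two_pow]
  by_cases hi : x = (i : ℕ)
  · subst hi
    simp [h]
  · have : i ≠ ⟨x, hx⟩ := by
      intro h2
      apply hi
      rw [h2]
    simp [hi, this]

theorem dec_or {t x : ℕ} (hx : x < 13) :
    dec (t ||| (1 <<< x)) = insert ⟨x, hx⟩ (dec t) := by
  ext i
  rw [mem_dec, Finset.mem_insert, mem_dec, Nat.testBit_or, Nat.one_shiftLeft, Nat.testBit_two_pow]
  by_cases hi : x = (i : ℕ)
  · subst hi
    simp
  · have : i ≠ ⟨x, hx⟩ := by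
      intro h2
      apply hi
      rw [h2]
    simp [hi, this]

/-- all facets of `t` obtained by deleting a bit `x < n`, `x ≠ u`, are in `D` -/
def facets (D t u : ℕ) (n : ℕ) : Bool :=
  Nat.rec (motive := fun _ => Bool) true
    (fun x ih => cond (tb t x) (cond (Nat.beq x u) ih (cond (tb D (Nat.xor t (Nat.shiftLeft 1 x))) ih false)) ih) n

theorem facets_spec {D t u : ℕ} : ∀ {n : ℕ}, facets D t u n = true →
    ∀ x, x < n → t.testBit x = true → x ≠ u → D.testBit (t ^^^ (1 <<< x)) = true := by
  intro n
  induction n with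
  | zero => intro _ x hx; exact absurd hx (Nat.not_lt_zero _)
  | succ n ih =>
    intro h x hx htx hxu
    have h' : cond (tb t n) (cond (Nat.beq n u) (facets D t u n)
        (cond (tb D (Nat.xor t (Nat.shiftLeft 1 n))) (facets D t u n) false)) (facets D t u n) = true := h
    rcases Nat.lt_succ_iff_lt_or_eq.mp hx with h1 | h1
    · apply ih _ x h1 htx hxu
      cases e1 : tb t n <;> rw [e1] at h'
      · exact h'
      · cases e2 : Nat.beq n u <;> rw [e2] at h'
        · cases e3 : tb D (Nat.xor t (Nat.shiftLeft 1 n)) <;> rw [e3] at h'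
          · exact absurd h' (by simp)
          · exact h'
        · exact h'
    · subst h1
      have e1 : tb t x = true := by rw [tb_eq]; exact htx
      have e2 : Nat.beq x u = false := by
        cases e : Nat.beq x u
        · rfl
        · exact absurd (Nat.eq_of_beq_eq_true e) hxu
      rw [e1, e2] at h'
      cases e3 : tb D (Nat.xor t (Nat.shiftLeft 1 x)) with
      | false => rw [e3] at h'; exact absurd h' (by simp)
      | true =>
        rw [tb_eq] at e3
        exact e3

/-- test of one elementary expansion: `s = c / 16`, apex `u = c % 16` -/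
def stepOK (D s u : ℕ) : Bool :=
  cond (Nat.blt u 13) (cond (Nat.blt s 8192) (cond (Nat.beq s 0) false (cond (tb s u) false
    (cond (tb D s) false (cond (tb D (Nat.lor s (Nat.shiftLeft 1 u))) false
      (facets D (Nat.lor s (Nat.shiftLeft 1 u)) u 13))))) false) false

theorem stepOK_spec {D s u : ℕ} (h : stepOK D s u = true) :
    u < 13 ∧ s < 8192 ∧ s ≠ 0 ∧ s.testBit u = false ∧ D.testBit s = false ∧
      D.testBit (s ||| (1 <<< u)) = false ∧ facets D (s ||| (1 <<< u)) u 13 = true := by
  unfold stepOK at h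
  cases e1 : Nat.blt u 13 <;> rw [e1] at h
  · exact absurd h (by simp)
  cases e2 : Nat.blt s 8192 <;> rw [e2] at h
  · exact absurd h (by simp)
  cases e3 : Nat.beq s 0 <;> rw [e3] at h
  swap
  · exact absurd h (by simp)
  cases e4 : tb s u <;> rw [e4] at h
  swap
  · exact absurd h (by simp)
  cases e5 : tb D s <;> rw [e5] at h
  swap
  · exact absurd h (by simp)
  cases e6 : tb D (Nat.lor s (Nat.shiftLeft 1 u)) <;> rw [e6] at h
  swap
  · exact absurd h (by simp)
  have h7 : facets D (s ||| (1 <<< u)) u 13 = true := h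
  refine ⟨Nat.le_of_ble_eq_true e1, Nat.le_of_ble_eq_true e2, ?_, ?_, ?_, ?_, h7⟩
  · exact Nat.ne_of_beq_eq_false e3
  · rw [← tb_eq]; exact e4
  · rw [← tb_eq]; exact e5
  · rw [← tb_eq]; exact e6

/-- next present set -/
def nxt (D s u : ℕ) : ℕ :=
  Nat.lor (Nat.lor D (Nat.shiftLeft 1 s)) (Nat.shiftLeft 1 (Nat.lor s (Nat.shiftLeft 1 u)))

/-- the checker: the digits of `N` in base `2 ^ 17`, from digit `n - 1` down to digit `0` -/
def run (N : ℕ) (n : ℕ) : ℕ → Bool :=
  Nat.rec (motive := fun _ => ℕ → Bool)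
    (fun D => Nat.beq (Nat.lor D 1) (Nat.pred (Nat.shiftLeft 1 8192)))
    (fun j ih D => Nat.rec (motive := fun _ => Bool) false
      (fun D' _ => Nat.rec (motive := fun _ => Bool) false
        (fun c' _ => cond (stepOK (Nat.succ D') (Nat.shiftRight (Nat.succ c') 4) (Nat.land (Nat.succ c') 15))
          (ih (nxt (Nat.succ D') (Nat.shiftRight (Nat.succ c') 4) (Nat.land (Nat.succ c') 15))) false)
        (Nat.land (Nat.shiftRight N (Nat.mul 17 j)) 131071)) D) n

theorem run_zero (N D : ℕ) : run N 0 D = Nat.beq (Nat.lor D 1) (Nat.pred (Nat.shiftLeft 1 8192)) := rfl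

theorem run_succ {N n D : ℕ} (h : run N (n + 1) D = true) :
    ∃ s u, stepOK D s u = true ∧ run N n (nxt D s u) = true := by
  have h' : Nat.rec (motive := fun _ => Bool) false
      (fun D' _ => Nat.rec (motive := fun _ => Bool) false
        (fun c' _ => cond (stepOK (Nat.succ D') (Nat.shiftRight (Nat.succ c') 4) (Nat.land (Nat.succ c') 15))
          (run N n (nxt (Nat.succ D') (Nat.shiftRight (Nat.succ c') 4) (Nat.land (Nat.succ c') 15))) false)
        (Nat.land (Nat.shiftRight N (Nat.mul 17 n)) 131071)) D = true := h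
  cases D with
  | zero => exact absurd h' (by simp)
  | succ D' =>
    cases e : Nat.land (Nat.shiftRight N (Nat.mul 17 n)) 131071 with
    | zero => rw [e] at h'; exact absurd h' (by simp)
    | succ c' =>
      rw [e] at h'
      have h2 : cond (stepOK (Nat.succ D') (Nat.shiftRight (Nat.succ c') 4) (Nat.land (Nat.succ c') 15))
          (run N n (nxt (Nat.succ D') (Nat.shiftRight (Nat.succ c') 4) (Nat.land (Nat.succ c') 15))) false = true := h'
      cases e2 : stepOK (Nat.succ D') (Nat.shiftRight (Nat.succ c') 4) (Nat.land (Nat.succ c') 15) with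
      | false => rw [e2] at h2; exact absurd h2 (by simp)
      | true =>
        rw [e2] at h2
        exact ⟨_, _, e2, h2⟩

/-- code of the complex -/
def D0 : ℕ := 0x1307570000000000000000000000000000000000000000000000000000000000000000000000000000000000000000000000000000000000000000000000000007153700000000000000000000000000000000000000000000000000000000010503770000000000000000000000000103115f000000000015131f0111053f0117177f00000000000000000000000000000000000000000000000000000000000000000000000000000000000000000000000000000000000000000000000000000000000000000000000000000000000000000000000000000000000000000000000000000000000000000000000000000000000000000000000000000000001307570000000000000000000000000000000000000000000000000000000000000000000000000000000000000000000000000000000000000000000000000007153700000000000000000000000000000000000000000000000000000000010503770000000000000000000000000103115f000000000015131f0111053f0117177f00000000000000000000000000000000000000000000000000000000000000000000000000000000000000000000000000000000000000000000000000000000000000000000000000000000000000000000000000000000000000000000000000000000000000000000000000000000000000000000000000000000001307570000000000000000000000000000000000000000000000000000000000000000000000000000000000000000000000000000000000000000000000000007153700000000000000000000000000000000000000000000000000000000010503770000000000000000000000000103115f000000000015131f0111053f0117177e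

/-- the certificate -/
def NN : ℕ := 0x18030900028202806300314041402c181048082104600204810220803041802088104c082504100f0017404a03404118201c14029106440310c80b8007a04288056804c0103208500508c282209400910034080b0e01a6280d9408088504411224092218a10e5041a200b100084504211030d018a884824280054501a299006482b240883068185448412223860a81154181a050d028a81134045a2480011a88a0e41260495004e80a3440c7007500368309548018605029291814064a20c3805a8a202190a088d051280334150a4c05540063014124a6100228280594128a0865508021414940a218102c280654031a038541828039464081605218282295140a0985080d04122206030441804c503460201415090684854288a1815181005094244a30808a4286034248a12850c129c002a80a10a54a006c00f240a31040a8284454221a130508a284494218a52050c4292414230a8905288296015300a91057002310158027c00d6102b0095808ac1056042b40152c0a16255809f50152a0a16150b0685c143c0a9c050b4285914ac0a15250e12a48550c299305438245075a40ac604cd02a3812344a0e24aa0ab404e264a07248a4a848b42a1a1c0d2e02870543a0a144d0ac285454aa0a14c50961e9082390a15450e228690e0c6a2263890e818730c11990546827601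5980930300a1a848ce2851062c9216408f3c029130d03866605518291315038a44a540d299280a98291c12270a0784e882b141386091a15070a62852b40a4e04e5024a912216a1a85074244d140e891b05078262c12226a0534819a44694324a0d248592460d418690a34c6106a08f4811a20bc216a00ee314a22c4d2402143506170655034680aae18a604d33210710958067046d023a809ce494014a50951c12d20b490ca4815a48a9207490aa4c252a02ae09ca80e38171e0b0401e7056501b1c319414c70873b031c44740a39031c8894414b2065985205091e16051247212cc2882444f06298133d08a6860e60a014550929c117221a7185389244193204d7b0409126401ee312a0c94854a66203150908b4906a4c222291a128b8855e42812444049c814e402f2229a054c81a6405ae231a058c81c6406b303177040aa2291153a08ac054a039c45400aa99140d0a240d5202e72154886681332059900eb8c0e8307230510c2cc604868221c190a2cc505ca8325059881bd405c612218990a4c8435c03734480924509330518c20e75421a819c41ae60c770238c31c458e21c78254c861a0d1301a9805b0c8a8345312290934858a464221a190b0c84966242e521928548c4683232151908ac844e6052c232a059481ca406d203398a404c21a2152318c0cc4d42242b1211c928c48466423525099198506c242e1213490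98c84ca564149a09c904a58270834328a0d44c4a242d1212c9095484a670295821a430e604690c41901a4a0e248730135848052462322548868c496224b12258a04851a409b280d1502288595480224a5430e807940d4e4201611898894a44b4225620699095812260a72052b0414c24a5127208eb0124c0ca906118328459c40b6015d48408c29c214a11a50952a5014684a8519129389024a14a88591432c4295113228a70452e1066484a82591132e016640ca056544808a494324e091d0b12826940b4b092503929509406ca4525a092c059518122c250e1290c9c01ba4927060ec039405cb08a582528329481ca48a50632d029488ca42a545028a89c144a0b250d12829960c4a066447160b899181ca4161a1328448624c819e502524179123ca20a19133047b023e811f089304598494d112608d308a9901bcc05ec02f06498a24d841f420fa0178c44c885f111348898544c64260a330709904b4226601b310c9c284c05a6229300e9a284c0b27019340c9809cd04a60653818980ccd062622339109c094c4c26a212078901e480ea4871203994984b4425251213896144b0c2694524e292534968a494724aa9a314b28a4ac5352292594d0aa58c530e29e11491ca4a4d246398d14e28a4a652523921b4878a4a552d229a614909e41cd32267619483ca615528e2921d490ae6446f0b29615490ce4b8535829071c934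a41d521aa90d9482ce445cf60676614c58a69153603783949929c8d521a394534c19a790520ba9c314a2aa534524c39a494c1aa434d35429055cd3824c8ce46690b34962a4b0d20b694594925a414f25929245cf10a62652c839c914926a6075286a9039ca1ca52c5312a9a8549839db0521729a254d6824b073d0298174d11a50cd345290b1cb24a4aa5206b9511b228e5c0cec269243c924e70552c8a96a14819e6c42f4239e054d06a4bc130ca9a894950e6385244b903b4f28252552127901dc84ea42672456901bc911e4a8d34a89274493924257213696234a49a6486f6307a194938658a539829413ce30a618d28369a074c34a6c48f426928d4a4ca59c1283a92d8493c25887346890e1c969258953c60984b4d19268e135609415ca0ce4a0f241b98474c81dda252da094e14c64a4a2733067285ce819e606f89298c54874a41ad2ca4912d381ea48b52cb09685492e2496920c79603ca32a4a2d28c6968348d29c2d5254a91273f482518720d39316390ba7406f88a9065c96864b5121c6960d492966a512ca89254cc51a5ac1218b982d4959270a531e094c9492c64327314a9e144e50a687132617831ca34a61e1304e94c5491a64ac329869905b422e6a6130569c254e382432d2c70910f380fa61c9342c90c3ca839d05d2568944d4a21e60a7230e70974c54a441ee19a9ae04825e608f298392b84c3a26642f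123904dccc91e24d31169232ce42a58d124749294ca25a622721539c234b4c26037300f90f0ce06a42ad288b90f44e8c1f065289396324e03a52a524789cd04d905e887346198d8494d27448f8269423ca52a72252d2890f84d34250b528e8988d490e67151310e9472494e2509d294398d44f60241d3215a9b80bd40e6a4330ac942b494c6698932257813cb0e2699128e1907a4852e7981252596924d64262c9301792e448792428f2946991a3c0da6c0af4079a12ca43a41cb291a9425ca6c253c125c19ac4489b1c0dd348c9e444974241f1205b926c486d262e12a51108dca3c2435337047a834d492535120f198b44c1965b8126517229c91c6522d20b59660c847a503d222d7017c9712498b30749c34486e2499321179c384e192534928179aa84a44e434b306c94564f811f80d3c24983c486c65989354496644a06e501f3960926a4a41e417332296815cc2a64b3136147a0b4d0d251632d8493263913a48d9392896684a2964359354898964f502517121719e22485965b21270c7287494b241793930945a4b26252e12d8890b4c85e2689929649306b903e485b344592c8c9266627128a99b04b502e6853348992c4c9616626934589e244d1525c18ec0e961649855c82f243592ca4c0b650cb20799c1c4a5a26a313d0890ba4d43250d92c8592ac495525aa12869943a4b5127059261c720f490f263913514909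cca4d250f1334178a1cc5866a8338c8909aca4b250e3213c96a44b84598272c919862ca4e278192c4c92a2ce905f0873a216c11ce2867c02dc039710e308e59432c619618cb0967903340d92a4cb116738131d098e24c3264aa3283c9416ce622507330d49cc84c652619938c498c64947258b124599c6848762438b283590e8cb851982d2c34964a487267608f9069c924f4125383388c9468cc23653892d14928accc15e20f31259a82cb46251b132912849cc8c5e06736117a09cd0c660e330399a28cc4c6606b34159a0ccd44661a3319196864a35253a13a147c0b4e0d27c205c129e184f24278a13d109e0c4e846b02738319c48c94665391225c702f481f248b928c5906cc8935c09f206d9226cb0565839394890ea48d31c29d216c92a64e815f00f38259e02ca326530b314598a8ccc25a21731299a84cc6265319219590ce48c35c21f212d9286c8955c0af2075922acc136532330599c264ec05b2072b21c491ca68652c32f01c681cb4865b03293196a0ce606524b2d059688ca3325133395094ca4e51260ab315490cccc562629938519886ce825b01738299704e302e58532c899624cb066581b388994cc4e1166438d01e981e4d0726530509a985c4d262633130d89c4c4c26670b1289c9446ca25670a921559c864c456443ae01f901ec90766233381c94aa4a5326239391894a2ca56242b92b09c485ca4a6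5a1329899c88ce452720b29499c0cc8536701b284d94a8ce056603b21599486ca15650b9205d908eca166522b2919948e4a07651e329d19c68ca36651a72cd1946ace2c6517338f094d8ca7c251f138999cc8ce74253b130f194ccce36243e320f99658cc746516b2cf09459ca3ca51e930d99e48ce2565137389390eccf34259332cd894b8ca78530e338e146c8ca64e532b38d296e84a27671a928da943cca3a513a939b094e94a37241eb20f39ca8ce70509e338599c64a62e25371295994e4a534661ab3998906ec9746592b20db926cc874e61a721d59649cb34a512f2cd4985cc86e651ad31b19638cb38510eb28e54439ca38d23e138539c61a72c270ab38c54c594a6ca5b6129b4987c4b5465b829c519e60a2556538a8cb894a9ca70d10b728cb4c5a487e25175285d9466a3166599288bc9c98ce6852333293994d4a626a63b120d79a58ce27249a72d989cb84e78109ab3d909cc94e0e6715290b59cca4a5e253d09c989859c92e670f138e844cd4a6727233398942d8cd3c261e920bb90d9cc3ca43e92cb4945b487ca49f120bd90dac83ea4be128579463a465641f9309b9ac8cb2ca62e331e14cb0a656273908c559662a314e5986919390cecc276792530dc983ccc3a530d285d89e18cf2852933293394d1a364a4b3321da961ccb2a530e538e2486d4a0f6515a91d29ae84866e5935293594d2a60ce71468d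9498ea4877242f321e944b4a536278e13ce04c4b4a0ee5156897294f1260d6714a9c949698cb6851ae12de0443e4a3b118f12ce844cb4e1d271c88c9c9e88cf60512e929e4444f4a1ea51d484b398dc492d662b331c94ca4a75427b8099159cc2a13ca416f385a9c652644e7306981d9c46a13d278333c894e2c4f3211a332d894c0dce22d30b938cc407b4a476531a99529ce1225725398895a94e52425e60e730e34c31a246e531681979caa4e7110ae325e146b0a524e4b27249d96ac4b72120eb30e54c32a126e692b2595906f4975240fb20ed4436a075a69a92c359652a435a68e334e14e30a174a58672ca3464b4d34a40f720eb4435a136a413f28379453a05d643ca896540b9c878d12c684799274a31a5327139a846394b38909b9315398e1a650d0b71305b9865a612d22ab31c54ca2a46ca60bb30cd4c26a56c242b721cb44a5a42f268b334c94e24a52e2437531b492acc97251a928c749672242ea50ed28e6468acb6152aa335c14ea0a0576439a894d460ecb23538273c83448bca61d1a272d834e0acf21530ad38c64c0bce21d0379281f9447a306e59169c549e622714a79849598989ccc6a53252919c962e4b33118b52cca48bc4c7a132d09169442f4a339092f2d5296e12255a538c919a96aa4b711307538aa4c994e68938713ca84c1e4e2b1326939a44239c938d18c69d309ed0224ea535484759272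a31951a712da8403bc839d10ce84d69a2acd315388a84ba985b4d2d268a734c34e21a52ca527929ac405f492f27a313d88482bcc31d308e85b2902fc833d109e845b9265a312d3235398a42a9c970d1a8685b49899cc68d3246815790e3a251d036d3592922ec9335189a855592e2a351518ad2cc64a4d4e4727318853992d4a34a5182f2c874aca4c1ea61d4986a4a98cd6853a42819e989acc695324a813d90d6a24b5293934789a74271a122e531e24cb12458d207b30ad4c16a465a4b353c329e51240ee6156982b4835a45d263c8996448b2a50e669529c294a34a41f261d8986c4836a04ee4356892b4ab84d7813ac09561469a4b691213d283e9457270d27948857892f4235a10ad2817a90f5225a902d6911b98c5a642d0b392d3296d1205f243d8896c40b6a60da714c893694d3230ea5954911d98c6a643522b931cc4ca62453518792cac4a8ccd6253a1284b69e894f6092ab135c84ea425525303d388e422bc931d188e99169cc32346a5b149d149ec22247a531c915a98e52652922969c1a9e452707279188d1c96c62525a4a6725a34691a04de434e89274a1acd295384a853592d2a3495286734a34e11a10ee49568c2b4a394d38938c49463423d493a918d4846b481bcc29d304e849e921ec92b5185a847c9276231b108da907698732619920ce8596901fc82bd105e8c369653205da43cc896640b3a15ca4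bc48d6242b1a51d269c89c644a32a01fa41dc886e4037a544e6b069d03488bcc61d320e941d9a46a70350ae925e446b2215950a37258b4685a506e69169c0b4a8acd6153a0a95529ae1275092a86811f90c7a243d22ad31c64ca32451d28b934cc4e2625135203f308f4c07a417a619c984e4827a55526b889d444aa2a345a5b0c945a9a65271292896851d92c6a3435382d3c8640af48739129c814f42ae497311a98854d460f4b2390ab525ca46a52152d227531aa4c95244ad22d495389ad4274a12a529568421bc929d184e913c98d6264b1225a916c423b4939918cc8467428bc961d1a0e845e926723139282f34874e03a515a698c9c464a23a107e491e8c0f4227a155a4b8c8d4642a3a50f269589c2c4a16a51b1027d21ae4497204bd02dc943a9a55270a92856946a4a9a4d6913a4895644a92a44da634c99264893a45992a6535a24e912548d2ac4853c92d6234b10ad8852d429d496a91a54856a4295a40fa615c982e4817a41b92a35358a4e852542d2a94952a488f4c639321c910f48a7244b92a39358c4e86255312a1a952c4a1b4d299384c94274a33214da4b4c8d2642b32149d087d24ae4617211b9085e941e9a4727039281e944e4a172545a6b0c9d064a83a55192a4c851e92c7234390a9c850f4297254390adc952e4697255b11ad89d2c4ab3216b90a5e85ec4397256b12a5a8d6642b6a5cb13a4c876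c46d6255393ac885e64796256991a9c8d2d4a3721d993a1c97264a93a36992bc89d4c42d6a159d0f5897644637217392aca958e4ed223c991bc89c2e4693a1cb50e9c8d6542a7a71b12b988f6446c725c3909dc9f244a87a169d3a8c974c43d327495295c954d4687a3c393b188dcc4a76250bd0cdc95a547a621f9108de9d0d4b1727c31195c872742f2a71992f48858f46a6a45b92ad4478e4b36251b52b8c8da543b2a3e910e1e8c2f4717233b12a8e97254e5625d193b0c978c4636a37190b9a9c2d4ac6a64b93a544f2543e6278b1095e94e64e27239b11a8e896e46b517c193a0e970d435723e311e8c9dc44b3321d35295a96ac46c6a65b13ad05ca64a33a7d110dd88f0d4673218bd235c95aa2ea2a13b503dc85ea23d2a39990cda95874f132709d0b8e91ec4af4153390f8c97864633a5939195a9ce440b7a15ac9d58836e43b514cb92e5457c443a3a58b5289e912f4a9595c1d135c8daa28b6a55a49b0e9c8e437324db12ed04cce43c6a27b11bd04f864497a34acb8ca8e2d4cb327588989e95c54b532139d3cc894a74e66266b13b505c0f459723ca8ae8a8fc44f07225b51ad24e4e4d9627ca0a3cc95e22783a79312dc89f8445b623da08cce992d4e94953951b8a9d854ca7275289d4c9f0543672589d194e86ad40d7a16ac875c87aa27a2a523d389a968e48b3a558c899e8ee449b325d88b34c9da22672a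389d065e872b23c3a193d2cca93ac4bd417a9103da85e921f621fa0991e91ad4ad492d991ec449e646f11583d2d989ca548e72572886da87692e63278952f0a986e4e35165a892ce8d63274721f15265a97292a66a649d3a4646a74732a59353c8c9b264f91166393b144bac47d414d392e945c474cb2a75849d988ccd4cf227780bd1889ad46d49383d229e954b24e723728b91a90ee4a75147a8a34e95a321f321f88b6c89f602372a2d391e9456a54f06a3e15274c97a22c87a742c83ce85e32d8727c28929e8d4b2837a51aca2d64b2d479490d9d0ec64e4d4937259a8a6d454c74b632591d33989dc82347a269d1b4653e44bf012e991f4448ee4675127a8a64e97232c57272a8b3545b4c4fa4121bd18d6496b2b46a331d075a87a928f2a57849d4a8a6e473512da89d8c83ce43e517a19390e994d4ea49073d0b965a2e4f1516ca88d9a918f4ac592f911fc0434f43a5927951bc259a54ed0960bd3856592b2987a5c2ca71c978a2ce327708a6ca97612f62263b139d059e82e62a2c9d1e464e8d4dd227e80b4d89e682db4147352b925e0744c7a362c9c8e8b8e47c514f312f9042ee437510fa881de84eb20f5961b538d259692ca3a750ca55c96aa29d512d951ec25e454d92a7c84a69a97492857a52aca35643a743d1966353b124bcc47e416d193e84522f4b1594cac8d8e89cd46e49639939c459e2297625ba0a7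d04b0f4785909bd0cd6436b2876a53a4a3d25b8c4fc415a1d274a97a121f2a1f84955c8eaa25d516c353e1248af4655926ac969a8f4921c7a1e2cb4cc9e622db114f192f8456c54517a38ac965658674e319658c9d0e8aec477412fa0b5589ea82dd41471d2b864ba547d0949b52cd253692c6727328b39458ea2476a33a493d258ad4e54966a49d8a89c746e192f191f8459874ec190f350f9253474ba196e193f045e85497325b88a7c4538d4bc492d1d1e864a6d473492da4a1ce94e328f1969393c945b4a2d35168b53c525b292157a1aac8756584f4e259652cb0d65b074f819499d2cc6536325c6a3e2495cc8ee225f116f113f8059c54ee096a993d445ba22956a5aa4a75258a74e519668c85da86e921f49239d19c649e32867a532ca39650eb2533a398c96c653874bc196d153e825ae44f7016f80b1ca9ce12cf094b392d9453ca297512ab51d524ba921e3a1f0cb44e9e232d9196a393d145b8a2d551493d2c96534b293592e1d1f064ace476512f2895d4588f4e459662cb15653c54be0969953cc25b612467a332c939648eb2527a392c96964a6b2953a5a8ca74642e7437190f8c978a8fc12d6627b20b7905ae82c66a7324b39258e92dc2a7e04b41e9e0b2d85968aca5ca96e129f092a9d1d464ba32d26a7924b6925a692572a3b8497c242cf436590f2c85d65aa54f5096e84a51e968b29c594aacb18e9cc3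2ce19638cb1964a8f474592e2c95565ac64f6116f08b5c45aca2966a5b24a79252e92566a3b2497924ae92d46a7a24b7125aa92d23a790cb6865a632d2594b1d2d8653c3297194b2c958e8ec325e192b8c95965a874f4196e0cb5465a8b2d62a7b04b7825ae12d6496b0cbba451fa29f916768a9f453d32af917744bbe05bd82de915bc8b5b459d32afc167e0b9e255f12eec14b6ca7e259f22df814bccafa458fa2c7c97b44b5f055d32e7c14f68bde055da2aec97364b9b458f32bf8167c4a9b65bd12b6994fe0b9e458db28f995b68afb059d928fc953ccb5a652f92e6995bc4b5e453d9287d95f44bfa052fa2f691476cbdb05f922d6c95be0bb2655b32fd8176c8af6457932ed895e68bd3454f92fc896bc4ab365cb32b5d15b64b3745eb82ecc95ec4a7665d9a2bcc97ac8b37257b82ccd972e8ab7455b929cd95a6cb9725bb82edc16ec4b53652bb2d5d16e64a3765e992dcd14ee8b76459b32e4d962ecad725b932f4996ae4bf3054bb2ead15accb566557a29dc96d68b2e64dda2ee527d48b6e45e722eac97ac49fa45fc246ec977252ae65c5b22ed907ec97f0577823e9955e4b6f05be84b3d175c4a2f651eb43fc15fa119f44bda2de526d649be25de149b99556cab969772257991fc8afc48ef22f71269e8beb045fa2af520fcca7c6927b29bc937e087f253e9466d9732d17a65b532de1a79e09be445f92af4a2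b6c93b657592bad151ecb2f44dd32bb894de897e244fb2a75a75c8bbc489f32cf1a5d4caf8686f9276d1796497e45be247789696cb59689fa2cf527968bd9487d92be4a71e485f652eb4e3d173a93ee0535b2ea99770d0df456ea4fa891f68af948bd92de4a6dc4b7c286db22f99578d3af05de847e897f0532b659cb457c93f60bf909c7321fd14fa91fe05fe0457d16ba92cb656cb4c3d959ccb2f25e712f70a59e4add28cf32e71a33e4b9d283db29e5a27e4b3d29a732d71a3ec8b4f25ae94b9d1794caa7646f32b71a1fc4afc288fb2c75a74e49df05ee84f9895ccc9da65ec34d8d92e6cb7168ed92f64a3e68be345f8a4d9d16ccc9f3243bb2f9917e8934764e9b2e9d11ee8af549b3926d992eccb74687b922dd956ad327646bb24dd966ad38764d9b2f0d97a2d267653ab4e8d9762d3e265d332ed1a36e4bb528dba2ed521eccaf469e3a27c997e0d17745baa4b1d95aad1f625fa145dc96ea52e365f192fc4a7ce095765aab4b9c95ea51f705fa843cd95e2d1d665e332f51a3ae49af45d6a46f5278e4bd528f722fb123f891d745eaa465d972ad12f649eb4cb5a35ccbac68de347ad17d291f94875b23e5a5d2d1cf44eea4f35239cc9dc69e63463d971ad19d68d7926f4a75a50af645eb4ab5a39e49dd29e6946ad9372d3a968b732db1a2f8d16f45b6a45f523d4c9f869f4343bd15da90fd48e5b2765a792d1ef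05f6847f422d6cb6968bcb47b897d851fc28a7b2d35a2bad0ee6576343f1a2de4b6d28be9433d91bad2cd68f592fa4a3f250ef2576943f4a0dec87d6936b478d93e2d3e168f4b469d936ad3a568d6b459d92ead36568b6b479997c8d1f468f63479d17ca91f548f6a439d95cad0f56876b471d93aad3c568e6b479c93ea53e528f694795a7b35359e96ed4b73a5f953f8a9ee54de6a6f95279e92ef4be3a6b9d2d9e9aed49f6a6f1d2f9a9ec749f3a6abd3f0e97a74dd3a6eb53d4e9b8f4b57a5eb52f1e9fa54f47a7ab53cda97674fb2a7e35275e9f4d4da7a793d3cce9b6d4bb6a6d9d2cde9a6f49b7a5d3d3e8e9e2f4d97a7c9d3e5a972f4f87a6bad37d296eb4fe1a5f8d37969fe14f74a7b2d3f9293eb4bf4a5f2d37c69ee34f55a5ead3f169fa34fd4a6ead2ed69f694fb1a79ad36d69f4b4f95a3f1d17da87e74776a1fb51f9a86ef4577a7f313b9b2fe54cf3a77953fc81eec4e76ce7b537d819cf4ee3a7f18179e9bce03e7a2f9d37cc15ed4bf6063bd35dc1ee64767a733d3d9c17ce4ae7cbb9d39cf23ef49f7247be69de96ee0bf32579e5f1e87af47d3a7ab9335e9bae45d7e56bd2f5c1fa64ed3cfe393b1f2fad4757a72be4ede9fac4ed6cedb91eda9f4e47b3a39bd16de996f9eb6a7db01e9e9d4f9eb3a7d9838de9e6e0bb7255be5e5e9f2e4e97cafad1dd68fe947e5a3f8d37d499eb93f5a5fa92bd73ceb4f750772d3f941fe84ef4cf78d3fc40fab4fd5276ae5ed69f6a4eb5cbf991bcf3de696f6a3fb03bd927ee42f7cd7ba59de8eee0e774a7bd17dc19ee97e72373e7b9d2daf47d7076b81ade8f6e0eb74bfa91bd73dea96f74f7ae5bf72def9ff90779e5bef3fda0ee7cb77e7fac0ffc0efccf7b67fe81ddd9eddcfeb83bdd3d7b9eb7ce7ee73df3db79fbb03df83b3f3efa0efd4d7eef7ec1df69e77cd7bef9ef35f7b77f0757e77bc1dbd9f6f0777a6bbf7f7c0dfe017fe5bfc1cfd9efe05ff2d77f8fbe05ff574fe72ff3cbf9edf05efaf9fc1e7e0ebf4d5fef5fc19fe9aff5dbfae3ff77bfbbbfddfeeebff77feb5ffd4ffeefdf77f7bbefddbfeeffa3ffd1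

theorem run_ok : run NN 3973 D0 = true := by decide +kernel

/-- the set of nonempty faces of the complex -/
def K : Set (Finset (Fin 13)) := DS D0

theorem DS_nxt {D s u : ℕ} (hu : u < 13) (hs : s < 8192) (hs0 : s ≠ 0) :
    DS (nxt D s u) = DS D ∪ {dec s, insert ⟨u, hu⟩ (dec s)} := by
  have ht : s ||| (1 <<< u) < 8192 := by
    have h1 : (1 <<< u : ℕ) < 2 ^ 13 := by
      rw [Nat.one_shiftLeft]; exact Nat.pow_lt_pow_right (by norm_num) hu
    exact Nat.or_lt_two_pow (n := 13) hs h1
  have ht0 : s ||| (1 <<< u) ≠ 0 := by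
    intro h
    exact hs0 (Nat.or_eq_zero_iff.mp h).1
  ext a
  obtain ⟨m, hm, rfl⟩ := dec_surj a
  by_cases h0 : m = 0
  · subst h0
    constructor
    · intro h
      exact absurd (DS_nonempty h) (by rw [dec_nonempty (by norm_num)]; simp)
    · rintro (h | h | h)
      · exact absurd (DS_nonempty h) (by rw [dec_nonempty (by norm_num)]; simp)
      · exact absurd (dec_inj (by norm_num) hs h).symm hs0
      · have h2 : dec 0 = insert ⟨u, hu⟩ (dec s) := h
        rw [dec_zero] at h2
        exact absurd h2.symm (Finset.insert_ne_empty _ _)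
  · rw [mem_DS hm h0]
    have h1 : (nxt D s u).testBit m = true ↔
        (D.testBit m = true ∨ s = m) ∨ (s ||| (1 <<< u)) = m := by
      have h2 : nxt D s u = (D ||| (1 <<< s)) ||| (1 <<< (s ||| (1 <<< u))) := rfl
      rw [h2, Nat.testBit_or, Nat.testBit_or, Nat.one_shiftLeft s, Nat.one_shiftLeft (s ||| (1 <<< u)),
        Nat.testBit_two_pow, Nat.testBit_two_pow]
      simp
    rw [h1, Set.mem_union, mem_DS hm h0]
    constructor
    · rintro ((h | h) | h)
      · exact Or.inl h
      · right; left; rw [h]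
      · right; right
        show dec m = insert ⟨u, hu⟩ (dec s)
        rw [← dec_or hu, h]
    · rintro (h | h | h)
      · exact Or.inl (Or.inl h)
      · left; right; exact (dec_inj hm hs h).symm
      · right
        have h2 : dec m = insert ⟨u, hu⟩ (dec s) := h
        rw [← dec_or hu] at h2
        exact (dec_inj hm ht h2).symm

/-- The data of one elementary expansion of `D`. -/
structure Exp (D : Set (Finset (Fin 13))) (s t : Finset (Fin 13)) : Prop where
  down : Down D
  pos : ∀ a ∈ D, a.Nonempty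
  s_ne : s.Nonempty
  hst : ∃ u, u ∉ s ∧ t = insert u s
  s_not : s ∉ D
  t_not : t ∉ D
  faces : ∀ r, r ⊂ t → r.Nonempty → r ≠ s → r ∈ D

theorem exp_of_step {D s u : ℕ} (hD : Down (DS D)) (h : stepOK D s u = true) :
    ∃ S T, Exp (DS D) S T ∧ DS (nxt D s u) = DS D ∪ {S, T} ∧ Down (DS (nxt D s u)) := by
  obtain ⟨hu, hs, hs0, hsu, hDs, hDt, hf⟩ := stepOK_spec h
  have ht : s ||| (1 <<< u) < 8192 := by
    have h1 : (1 <<< u : ℕ) < 2 ^ 13 := by
      rw [Nat.one_shiftLeft]; exact Nat.pow_lt_pow_right (by norm_num) hu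
    exact Nat.or_lt_two_pow (n := 13) hs h1
  have ht0 : s ||| (1 <<< u) ≠ 0 := by
    intro h
    exact hs0 (Nat.or_eq_zero_iff.mp h).1
  have hus : (⟨u, hu⟩ : Fin 13) ∉ dec s := by
    rw [mem_dec]
    simp [hsu]
  have hfac : ∀ x : Fin 13, x ∈ dec s → (insert ⟨u, hu⟩ (dec s)).erase x ∈ DS D := by
    intro x hx
    have hxu : (x : ℕ) ≠ u := by
      intro h2
      apply hus
      have : x = ⟨u, hu⟩ := Fin.ext h2
      rwa [← this]
    have htx : (s ||| (1 <<< u)).testBit (x : ℕ) = true := by
      rw [Nat.testBit_or]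
      rw [mem_dec] at hx
      simp [hx]
    have h3 := facets_spec hf x x.2 htx hxu
    have h4 : dec ((s ||| (1 <<< u)) ^^^ (1 <<< (x : ℕ))) = (insert ⟨u, hu⟩ (dec s)).erase x := by
      rw [dec_xor_of_mem x.2 htx, dec_or hu]
    have h5 : (⟨u, hu⟩ : Fin 13) ∈ dec ((s ||| (1 <<< u)) ^^^ (1 <<< (x : ℕ))) := by
      rw [h4, Finset.mem_erase]
      refine ⟨?_, Finset.mem_insert_self _ _⟩
      intro h6
      exact hxu (congrArg Fin.val h6).symm
    have h6 : (s ||| (1 <<< u)) ^^^ (1 <<< (x : ℕ)) < 8192 := by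
      have h1 : (1 <<< (x : ℕ) : ℕ) < 2 ^ 13 := by
        rw [Nat.one_shiftLeft]; exact Nat.pow_lt_pow_right (by norm_num) x.2
      exact Nat.xor_lt_two_pow (n := 13) ht h1
    have h7 : (s ||| (1 <<< u)) ^^^ (1 <<< (x : ℕ)) ≠ 0 := by
      intro h8
      rw [h8, dec_zero] at h5
      exact absurd h5 (Finset.notMem_empty _)
    rw [← h4]
    exact (mem_DS h6 h7).2 h3
  have hfaces : ∀ r, r ⊂ insert ⟨u, hu⟩ (dec s) → r.Nonempty → r ≠ dec s → r ∈ DS D := by
    intro r hr hrn hrs
    obtain ⟨hr1, hr2⟩ := Finset.ssubset_iff_subset_ne.mp hr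
    have h8 : ∃ x ∈ dec s, x ∉ r := by
      by_contra hcon
      push Not at hcon
      by_cases hur : (⟨u, hu⟩ : Fin 13) ∈ r
      · apply hr2
        apply Finset.Subset.antisymm hr1
        intro y hy
        rcases Finset.mem_insert.mp hy with rfl | hy
        · exact hur
        · exact hcon y hy
      · apply hrs
        apply Finset.Subset.antisymm
        · intro y hy
          rcases Finset.mem_insert.mp (hr1 hy) with rfl | hy2
          · exact absurd hy hur
          · exact hy2
        · intro y hy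
          exact hcon y hy
    obtain ⟨x, hx, hxr⟩ := h8
    apply hD _ (hfac x hx) r _ hrn
    intro y hy
    rw [Finset.mem_erase]
    refine ⟨?_, hr1 hy⟩
    rintro rfl
    exact hxr hy
  have hexp : Exp (DS D) (dec s) (insert ⟨u, hu⟩ (dec s)) := by
    refine ⟨hD, fun a ha => DS_nonempty ha, (dec_nonempty hs).2 hs0, ⟨_, hus, rfl⟩, ?_, ?_, hfaces⟩
    · rw [mem_DS hs hs0, hDs]; simp
    · rw [← dec_or hu, mem_DS ht ht0, hDt]; simp
  refine ⟨_, _, hexp, DS_nxt hu hs hs0, ?_⟩
  rw [DS_nxt hu hs hs0]
  intro a ha b hb hbn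
  rcases ha with ha | ha | ha
  · exact Or.inl (hD a ha b hb hbn)
  · have ha' : a = dec s := ha
    subst ha'
    by_cases hbs : b = dec s
    · right; left; exact hbs
    · left
      apply hfaces b _ hbn hbs
      rw [Finset.ssubset_iff_subset_ne]
      refine ⟨fun y hy => Finset.mem_insert_of_mem (hb hy), ?_⟩
      rintro rfl
      exact hus (hb (Finset.mem_insert_self _ _))
  · have ha' : a = insert ⟨u, hu⟩ (dec s) := ha
    subst ha'
    by_cases hbt : b = insert ⟨u, hu⟩ (dec s)
    · right; right; exact hbt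
    · by_cases hbs : b = dec s
      · right; left; exact hbs
      · left
        exact hfaces b (Finset.ssubset_iff_subset_ne.mpr ⟨hb, hbt⟩) hbn hbs

/-- backward induction along the certificate -/
theorem run_ind (M : Set (Finset (Fin 13)) → Prop) (h1 : M {a | a.Nonempty})
    (hstep : ∀ D S T, Exp D S T → M (D ∪ {S, T}) → M D) {N : ℕ} :
    ∀ (n : ℕ) (D : ℕ), Down (DS D) → run N n D = true → M (DS D) := by
  intro n
  induction n with
  | zero =>
    intro D _ h
    rw [run_zero] at h
    have h2 : D ||| 1 = 2 ^ 8192 - 1 := by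
      have h3 := Nat.eq_of_beq_eq_true h
      have h4 : Nat.lor D 1 = D ||| 1 := rfl
      have h5 : Nat.pred (Nat.shiftLeft 1 8192) = 2 ^ 8192 - 1 := by
        have h6 : Nat.shiftLeft 1 8192 = 2 ^ 8192 := Nat.one_shiftLeft 8192
        rw [h6]
        rfl
      rw [← h4, h3, h5]
    have h3 : DS D = {a | a.Nonempty} := by
      ext a
      constructor
      · intro h; exact DS_nonempty h
      · intro (h : a.Nonempty)
        obtain ⟨m, hm, rfl⟩ := dec_surj a
        have h0 := (dec_nonempty hm).1 h
        rw [mem_DS hm h0]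
        have h4 : (D ||| 1).testBit m = true := by
          rw [h2, Nat.testBit_two_pow_sub_one]
          simp [hm]
        rw [Nat.testBit_or] at h4
        have h5 : Nat.testBit 1 m = false := by
          have : (1 : ℕ) = 2 ^ 0 := rfl
          rw [this, Nat.testBit_two_pow]
          simp [Ne.symm h0]
        rw [h5] at h4
        simpa using h4
    rw [h3]
    exact h1
  | succ n ih =>
    intro D hD h
    obtain ⟨s, u, h2, h3⟩ := run_succ h
    obtain ⟨S, T, h4, h5, h6⟩ := exp_of_step hD h2
    have h7 := ih _ h6 h3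
    rw [h5] at h7
    exact hstep _ _ _ h4 h7

/-- image of a bitmask under a map of `Fin 13` -/
def act (g : Fin 13 → Fin 13) (m : ℕ) : ℕ :=
  (List.finRange 13).foldl (fun (r : ℕ) (i : Fin 13) => cond (tb m (i : ℕ)) (Nat.lor r (Nat.shiftLeft 1 (g i : ℕ))) r) 0

theorem act_aux (g : Fin 13 → Fin 13) (m : ℕ) (L : List (Fin 13)) : ∀ (r : ℕ) (j : Fin 13),
    (L.foldl (fun (r : ℕ) (i : Fin 13) => cond (tb m (i : ℕ)) (Nat.lor r (Nat.shiftLeft 1 (g i : ℕ))) r) r).testBit (j : ℕ) = true ↔
      r.testBit (j : ℕ) = true ∨ ∃ i ∈ L, m.testBit (i : ℕ) = true ∧ g i = j := by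
  induction L with
  | nil => intro r j; simp
  | cons i L ih =>
    intro r j
    rw [List.foldl_cons, ih]
    cases e : tb m i with
    | false =>
      rw [tb_eq] at e
      constructor
      · rintro (h | ⟨k, hk, h⟩)
        · exact Or.inl h
        · exact Or.inr ⟨k, List.mem_cons_of_mem _ hk, h⟩
      · rintro (h | ⟨k, hk, h1, h2⟩)
        · exact Or.inl h
        · rcases List.mem_cons.mp hk with rfl | hk
          · rw [e] at h1; exact absurd h1 (by simp)
          · exact Or.inr ⟨k, hk, h1, h2⟩
    | true =>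
      rw [tb_eq] at e
      have h0 : (cond true (Nat.lor r (Nat.shiftLeft 1 (g i))) r).testBit (j : ℕ) = true ↔
          r.testBit (j : ℕ) = true ∨ g i = j := by
        show (r ||| (1 <<< (g i : ℕ))).testBit (j : ℕ) = true ↔ _
        rw [Nat.testBit_or, Nat.one_shiftLeft, Nat.testBit_two_pow]
        simp [Fin.ext_iff]
      rw [h0]
      constructor
      · rintro ((h | h) | ⟨k, hk, h⟩)
        · exact Or.inl h
        · exact Or.inr ⟨i, List.mem_cons_self, e, h⟩
        · exact Or.inr ⟨k, List.mem_cons_of_mem _ hk, h⟩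
      · rintro (h | ⟨k, hk, h1, h2⟩)
        · exact Or.inl (Or.inl h)
        · rcases List.mem_cons.mp hk with rfl | hk
          · exact Or.inl (Or.inr h2)
          · exact Or.inr ⟨k, hk, h1, h2⟩

theorem dec_act (g : Fin 13 → Fin 13) (m : ℕ) : dec (act g m) = (dec m).image g := by
  ext j
  rw [mem_dec, act, act_aux, Finset.mem_image]
  constructor
  · rintro (h | ⟨i, _, h1, h2⟩)
    · rw [Nat.zero_testBit] at h; exact absurd h (by simp)
    · exact ⟨i, mem_dec.2 h1, h2⟩
  · rintro ⟨i, h1, h2⟩
    exact Or.inr ⟨i, List.mem_finRange i, mem_dec.1 h1, h2⟩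

theorem act_lt (g : Fin 13 → Fin 13) (m : ℕ) : act g m < 8192 := by
  unfold act
  have key : ∀ (L : List (Fin 13)) (r : ℕ), r < 2 ^ 13 →
      L.foldl (fun (r : ℕ) (i : Fin 13) => cond (tb m (i : ℕ)) (Nat.lor r (Nat.shiftLeft 1 (g i : ℕ))) r) r < 2 ^ 13 := by
    intro L
    induction L with
    | nil => intro r hr; exact hr
    | cons i L ih =>
      intro r hr
      rw [List.foldl_cons]
      apply ih
      cases tb m i with
      | false => exact hr
      | true =>
        have h1 : (1 <<< (g i : ℕ) : ℕ) < 2 ^ 13 := by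
          rw [Nat.one_shiftLeft]; exact Nat.pow_lt_pow_right (by norm_num) (g i).2
        exact Nat.or_lt_two_pow hr h1
  exact key _ 0 (by norm_num)

/-- a predicate tested on all codes of faces of the complex -/
def testAll (p : ℕ → Bool) (n : ℕ) : Bool :=
  Nat.rec (motive := fun _ => Bool) true (fun m ih => cond (tb D0 m) (cond (p m) ih false) ih) n

theorem testAll_spec {p : ℕ → Bool} : ∀ {n : ℕ}, testAll p n = true →
    ∀ m, m < n → D0.testBit m = true → p m = true := by
  intro n
  induction n with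
  | zero => intro _ m hm; exact absurd hm (Nat.not_lt_zero _)
  | succ n ih =>
    intro h m hm hD
    have h' : cond (tb D0 n) (cond (p n) (testAll p n) false) (testAll p n) = true := h
    rcases Nat.lt_succ_iff_lt_or_eq.mp hm with h1 | h1
    · apply ih _ m h1 hD
      cases e1 : tb D0 n <;> rw [e1] at h'
      · exact h'
      · cases e2 : p n <;> rw [e2] at h'
        · exact absurd h' (by simp)
        · exact h'
    · subst h1
      have e1 : tb D0 m = true := by rw [tb_eq]; exact hD
      rw [e1] at h'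
      cases e2 : p m with
      | false => rw [e2] at h'; exact absurd h' (by simp)
      | true => rfl

/-- 3-cycle on the points `0, 1, 2`, acting also on the six pentagons -/
def g1 : Equiv.Perm (Fin 13) where
  toFun := ![1, 2, 0, 3, 4, 7, 10, 8, 5, 6, 9, 11, 12]
  invFun := ![2, 0, 1, 3, 4, 8, 9, 5, 7, 10, 6, 11, 12]
  left_inv := by decide
  right_inv := by decide

/-- 5-cycle on the points, acting also on the six pentagons -/
def g2 : Equiv.Perm (Fin 13) where
  toFun := ![1, 2, 3, 4, 0, 10, 8, 7, 9, 5, 6, 11, 12]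
  invFun := ![4, 0, 1, 2, 3, 9, 10, 7, 6, 8, 5, 11, 12]
  left_inv := by decide
  right_inv := by decide

/-- swap of the two suspension vertices -/
def g3 : Equiv.Perm (Fin 13) where
  toFun := ![0, 1, 2, 3, 4, 5, 6, 7, 8, 9, 10, 12, 11]
  invFun := ![0, 1, 2, 3, 4, 5, 6, 7, 8, 9, 10, 12, 11]
  left_inv := by decide
  right_inv := by decide

theorem K_nonempty {a : Finset (Fin 13)} (h : a ∈ K) : a.Nonempty := DS_nonempty h

theorem singleton_mem_K (v : Fin 13) : {v} ∈ K := by
  have h1 : ∀ v : Fin 13, tb D0 (Nat.shiftLeft 1 v) = true := by decide +kernel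
  have h2 : dec (0 ||| (1 <<< (v : ℕ))) = {v} := by
    rw [dec_or v.2, dec_zero]
    rfl
  rw [Nat.zero_or] at h2
  have h3 : (1 <<< (v : ℕ) : ℕ) < 2 ^ 13 := by
    rw [Nat.one_shiftLeft]; exact Nat.pow_lt_pow_right (by norm_num) v.2
  have h4 : (1 <<< (v : ℕ) : ℕ) ≠ 0 := by
    rw [Nat.one_shiftLeft]; exact pow_ne_zero _ (by norm_num)
  rw [← h2]
  apply (mem_DS h3 h4).2
  rw [← tb_eq]
  exact h1 v

theorem Down_of_facets {D : ℕ} (h : ∀ m, m < 8192 → m ≠ 0 → D.testBit m = true → ∀ x, x < 13 →
    m.testBit x = true → m ^^^ (1 <<< x) = 0 ∨ D.testBit (m ^^^ (1 <<< x)) = true) : Down (DS D) := by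
  have key : ∀ (n : ℕ) (a b : Finset (Fin 13)), a ∈ DS D → b ⊆ a → b.Nonempty →
      (a \ b).card = n → b ∈ DS D := by
    intro n
    induction n with
    | zero =>
      intro a b ha hb _ hc
      rw [Finset.card_eq_zero, Finset.sdiff_eq_empty_iff_subset] at hc
      rwa [Finset.Subset.antisymm hb hc]
    | succ n ih =>
      intro a b ha hb hbn hc
      have h1 : (a \ b).Nonempty := by
        rw [← Finset.card_pos, hc]; exact Nat.succ_pos _
      obtain ⟨x, hx⟩ := h1
      rw [Finset.mem_sdiff] at hx
      have hsub : b ⊆ a.erase x := by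
        intro y hy
        rw [Finset.mem_erase]
        refine ⟨?_, hb hy⟩
        rintro rfl
        exact hx.2 hy
      apply ih (a.erase x) b _ hsub hbn
      · have h2 : a.erase x \ b = (a \ b).erase x := by
          ext y
          simp only [Finset.mem_sdiff, Finset.mem_erase]
          tauto
        rw [h2, Finset.card_erase_of_mem (Finset.mem_sdiff.2 hx), hc]
        rfl
      · obtain ⟨m, hm, h0, hD, rfl⟩ := ha
        have hmx := mem_dec.1 hx.1
        have h3 := h m hm h0 hD x x.2 hmx
        have h4 := dec_xor_of_mem x.2 hmx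
        have h5 : (m ^^^ (1 <<< (x : ℕ))) < 8192 := by
          have h1 : (1 <<< (x : ℕ) : ℕ) < 2 ^ 13 := by
            rw [Nat.one_shiftLeft]; exact Nat.pow_lt_pow_right (by norm_num) x.2
          exact Nat.xor_lt_two_pow (n := 13) hm h1
        have h6 : (dec m).erase x = dec (m ^^^ (1 <<< (x : ℕ))) := h4.symm
        have h7 : m ^^^ (1 <<< (x : ℕ)) ≠ 0 := by
          intro h8
          rw [h8, dec_zero] at h6
          rw [h6] at hsub
          exact absurd (Finset.subset_empty.mp hsub) (Finset.nonempty_iff_ne_empty.mp hbn)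
        rw [h6]
        exact (mem_DS h5 h7).2 (h3.resolve_left h7)
  intro a ha b hb hbn
  exact key _ a b ha hb hbn rfl

/-- facet test for the complex itself -/
def facN (m n : ℕ) : Bool :=
  Nat.rec (motive := fun _ => Bool) true
    (fun x ih => cond (tb m x) (cond (Nat.beq (Nat.xor m (Nat.shiftLeft 1 x)) 0) ih
      (cond (tb D0 (Nat.xor m (Nat.shiftLeft 1 x))) ih false)) ih) n

theorem facN_spec {m : ℕ} : ∀ {n : ℕ}, facN m n = true → ∀ x, x < n → m.testBit x = true →
    m ^^^ (1 <<< x) = 0 ∨ D0.testBit (m ^^^ (1 <<< x)) = true := by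
  intro n
  induction n with
  | zero => intro _ x hx; exact absurd hx (Nat.not_lt_zero _)
  | succ n ih =>
    intro h x hx hmx
    have h' : cond (tb m n) (cond (Nat.beq (Nat.xor m (Nat.shiftLeft 1 n)) 0) (facN m n)
      (cond (tb D0 (Nat.xor m (Nat.shiftLeft 1 n))) (facN m n) false)) (facN m n) = true := h
    rcases Nat.lt_succ_iff_lt_or_eq.mp hx with h1 | h1
    · apply ih _ x h1 hmx
      cases e1 : tb m n <;> rw [e1] at h'
      · exact h'
      · cases e2 : Nat.beq (Nat.xor m (Nat.shiftLeft 1 n)) 0 <;> rw [e2] at h'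
        · cases e3 : tb D0 (Nat.xor m (Nat.shiftLeft 1 n)) <;> rw [e3] at h'
          · exact absurd h' (by simp)
          · exact h'
        · exact h'
    · subst h1
      have e1 : tb m x = true := by rw [tb_eq]; exact hmx
      rw [e1] at h'
      cases e2 : Nat.beq (Nat.xor m (Nat.shiftLeft 1 x)) 0 with
      | true => left; exact Nat.eq_of_beq_eq_true e2
      | false =>
        rw [e2] at h'
        cases e3 : tb D0 (Nat.xor m (Nat.shiftLeft 1 x)) with
        | false => rw [e3] at h'; exact absurd h' (by simp)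
        | true => right; rw [tb_eq] at e3; exact e3

theorem K_down : Down K := by
  apply Down_of_facets
  intro m hm h0 hD
  have h1 : testAll (fun m => facN m 13) 8192 = true := by decide +kernel
  exact facN_spec (testAll_spec h1 m hm hD)

theorem K_image {g : Fin 13 → Fin 13} (h1 : testAll (fun m => tb D0 (act g m)) 8192 = true)
    {a : Finset (Fin 13)} (ha : a ∈ K) : a.image g ∈ K := by
  obtain ⟨m, hm, h0, hD, rfl⟩ := ha
  have h2 := testAll_spec h1 m hm hD
  rw [tb_eq] at h2
  rw [← dec_act]
  have h3 : act g m ≠ 0 := by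
    intro h4
    have h5 : (dec (act g m)).Nonempty := by
      rw [dec_act]
      exact ((dec_nonempty hm).2 h0).image g
    rw [h4, dec_zero] at h5
    exact Finset.not_nonempty_empty h5
  exact (mem_DS (act_lt g m) h3).2 h2

theorem K_image_g1 {a : Finset (Fin 13)} (ha : a ∈ K) : a.image g1 ∈ K :=
  K_image (by decide +kernel) ha

theorem K_image_g2 {a : Finset (Fin 13)} (ha : a ∈ K) : a.image g2 ∈ K :=
  K_image (by decide +kernel) ha

theorem K_image_g3 {a : Finset (Fin 13)} (ha : a ∈ K) : a.image g3 ∈ K :=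
  K_image (by decide +kernel) ha

/-- the group generated by `g1, g2, g3` -/
def G : Subgroup (Equiv.Perm (Fin 13)) := Subgroup.closure {g1, g2, g3}

theorem image_perm_mul (g h : Equiv.Perm (Fin 13)) (a : Finset (Fin 13)) :
    a.image (g * h) = (a.image h).image g := by
  rw [Finset.image_image]
  rfl

theorem image_perm_one (a : Finset (Fin 13)) : a.image (1 : Equiv.Perm (Fin 13)) = a := by
  have : ((1 : Equiv.Perm (Fin 13)) : Fin 13 → Fin 13) = id := rfl
  rw [this, Finset.image_id]

theorem K_image_pow {g : Equiv.Perm (Fin 13)} (hg : ∀ a ∈ K, a.image g ∈ K) :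
    ∀ (n : ℕ), ∀ a ∈ K, a.image (g ^ n : Equiv.Perm (Fin 13)) ∈ K := by
  intro n
  induction n with
  | zero => intro a ha; rw [pow_zero, image_perm_one]; exact ha
  | succ n ih =>
    intro a ha
    rw [pow_succ, image_perm_mul]
    exact ih _ (hg a ha)

theorem K_image_inv {g : Equiv.Perm (Fin 13)} (hg : ∀ a ∈ K, a.image g ∈ K) :
    ∀ a ∈ K, a.image (g⁻¹ : Equiv.Perm (Fin 13)) ∈ K := by
  intro a ha
  have h1 : g⁻¹ = g ^ (orderOf g - 1) := by
    have h2 : 0 < orderOf g := orderOf_pos g
    have h3 : g * g ^ (orderOf g - 1) = 1 := by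
      rw [← pow_succ', Nat.sub_add_cancel h2, pow_orderOf_eq_one]
    exact inv_eq_of_mul_eq_one_right h3
  rw [h1]
  exact K_image_pow hg _ a ha

theorem K_image_G {g : Equiv.Perm (Fin 13)} (hg : g ∈ G) : ∀ a ∈ K, a.image g ∈ K := by
  induction hg using Subgroup.closure_induction with
  | mem x hx =>
    rcases hx with rfl | rfl | rfl
    · intro a ha; exact K_image_g1 ha
    · intro a ha; exact K_image_g2 ha
    · intro a ha; exact K_image_g3 ha
  | one => intro a ha; rw [image_perm_one]; exact ha
  | mul x y _ _ hx hy =>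
    intro a ha
    rw [image_perm_mul]
    exact hx _ (hy _ ha)
  | inv x _ hx => exact K_image_inv hx

theorem K_image_iff {g : Equiv.Perm (Fin 13)} (hg : g ∈ G) (a : Finset (Fin 13)) :
    a.image g ∈ K ↔ a ∈ K := by
  constructor
  · intro h
    have h1 := K_image_G (G.inv_mem hg) _ h
    rwa [← image_perm_mul, inv_mul_cancel, image_perm_one] at h1
  · exact K_image_G hg a

/-- no nonempty face of `K` is invariant: one of the generators moves it -/
theorem K_fpf {a : Finset (Fin 13)} (ha : a ∈ K) : ∃ g ∈ G, a.image g ≠ a := by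
  obtain ⟨m, hm, h0, hD, rfl⟩ := ha
  have h1 : testAll (fun m => cond (Nat.beq m 0) true (cond (Nat.beq (act g1 m) m)
      (cond (Nat.beq (act g2 m) m) (cond (Nat.beq (act g3 m) m) false true) true) true)) 8192 = true := by
    decide +kernel
  have h2 := testAll_spec h1 m hm hD
  have hne : ∀ g : Equiv.Perm (Fin 13), Nat.beq (act g m) m = false → (dec m).image g ≠ dec m := by
    intro g h3 h4
    rw [← dec_act] at h4
    exact Nat.ne_of_beq_eq_false h3 (dec_inj (act_lt g m) hm h4)
  cases e0 : Nat.beq m 0 with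
  | true => exact absurd (Nat.eq_of_beq_eq_true e0) h0
  | false =>
    rw [e0] at h2
    cases e1 : Nat.beq (act g1 m) m with
    | false => exact ⟨g1, Subgroup.subset_closure (by simp), hne g1 e1⟩
    | true =>
      rw [e1] at h2
      cases e2 : Nat.beq (act g2 m) m with
      | false => exact ⟨g2, Subgroup.subset_closure (by simp), hne g2 e2⟩
      | true =>
        rw [e2] at h2
        cases e3 : Nat.beq (act g3 m) m with
        | false => exact ⟨g3, Subgroup.subset_closure (by simp), hne g3 e3⟩
        | true => rw [e3] at h2; exact absurd h2 (by simp)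

/-- **Certificate theorem**: backward induction from the full simplex (all nonempty subsets of
`Fin 13`) down to `K` through elementary collapses. -/
theorem cert_ind (M : Set (Finset (Fin 13)) → Prop) (h1 : M {a | a.Nonempty})
    (hstep : ∀ D S T, Exp D S T → M (D ∪ {S, T}) → M D) : M K :=
  run_ind M h1 hstep 3973 D0 K_down run_ok

end Pool.Agent.H472R2.Evas
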